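import Pool.Agent.Helper88.PP.Goals

/-! Packet CO (MP_69be96_nt): the bound for the divisor coefficients. -/

set_option autoImplicit false

open Finset Filter Topology

open scoped Classical

namespace Pool.Agent.Helper69.PP

open Pool.Agent.Helper88.PP

theorem totient_real (d : ℕ) :
    (Nat.totient d : ℝ) = d * ∏ p ∈ d.primeFactors, (1 - (p : ℝ)⁻¹) := by
  have h := Nat.totient_eq_mul_prod_factors d
  have h2 := congrArg (fun x : ℚ => (x : ℝ)) h
  push_cast at h2
  exact h2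

/-- `d ≤ 2 φ(d)` -/
theorem le_two_totient {z M d : ℕ} (hz : 2 * M + 2 ≤ z) (hd : d ∈ SS z (z ^ M)) :
    (d : ℝ) ≤ 2 * (Nat.totient d : ℝ) := by
  unfold SS at hd
  rw [mem_filter, mem_Ico] at hd
  obtain ⟨⟨hd1, hd2⟩, hsf, hp⟩ := hd
  have hz0 : (0 : ℝ) < z := by exact_mod_cast (by omega : 0 < z)
  have hcard : d.primeFactors.card < M := by
    have h1 : z ^ d.primeFactors.card ≤ ∏ p ∈ d.primeFactors, p := by
      apply Finset.pow_card_le_prod
      intro p hpd
      exact (hp p (Nat.prime_of_mem_primeFactors hpd) (Nat.dvd_of_mem_primeFactors hpd)).le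
    rw [Nat.prod_primeFactors_of_squarefree hsf] at h1
    have h2 : z ^ d.primeFactors.card < z ^ M := lt_of_le_of_lt h1 hd2
    exact (Nat.pow_lt_pow_iff_right (by omega : 1 < z)).1 h2
  have h1 : (1 - (z : ℝ)⁻¹) ^ d.primeFactors.card ≤ ∏ p ∈ d.primeFactors, (1 - (p : ℝ)⁻¹) := by
    have hle : ∀ p ∈ d.primeFactors, (1 - (z : ℝ)⁻¹) ≤ 1 - (p : ℝ)⁻¹ := by
      intro p hpd
      have h3 : z < p := hp p (Nat.prime_of_mem_primeFactors hpd) (Nat.dvd_of_mem_primeFactors hpd)
      have h4 : (z : ℝ) ≤ p := by exact_mod_cast h3.le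
      have h5 := inv_anti₀ hz0 h4
      linarith
    have hnn : (0 : ℝ) ≤ 1 - (z : ℝ)⁻¹ := by
      have : (z : ℝ)⁻¹ ≤ 1 := inv_le_one_of_one_le₀ (by exact_mod_cast (by omega : 1 ≤ z))
      linarith
    rw [← Finset.prod_const]
    exact Finset.prod_le_prod (fun p _ => hnn) hle
  have h2 : 1 - (d.primeFactors.card : ℝ) * (z : ℝ)⁻¹ ≤ (1 - (z : ℝ)⁻¹) ^ d.primeFactors.card := by
    have h3 := one_add_mul_le_pow (a := -(z : ℝ)⁻¹) (by
      have : (z : ℝ)⁻¹ ≤ 1 := inv_le_one_of_one_le₀ (by exact_mod_cast (by omega : 1 ≤ z))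
      linarith) d.primeFactors.card
    have h4 : (1 : ℝ) + -(z : ℝ)⁻¹ = 1 - (z : ℝ)⁻¹ := by ring
    rw [h4] at h3
    linarith
  have h3 : (d.primeFactors.card : ℝ) * (z : ℝ)⁻¹ ≤ 1 / 2 := by
    rw [← div_eq_mul_inv, div_le_iff₀ hz0]
    have : ((2 * d.primeFactors.card : ℕ) : ℝ) ≤ (z : ℝ) := by
      exact_mod_cast (by omega : 2 * d.primeFactors.card ≤ z)
    push_cast at this
    linarith
  rw [totient_real]
  have h4 : (1 / 2 : ℝ) ≤ ∏ p ∈ d.primeFactors, (1 - (p : ℝ)⁻¹) := by linarith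
  have h5 : (0 : ℝ) ≤ d := Nat.cast_nonneg d
  nlinarith

/-- multiples of `d` -/
theorem sum_mult {z X d : ℕ} (hd1 : 1 ≤ d) :
    ∑ r ∈ (SS z X).filter (fun r => d ∣ r), 1 / (Nat.totient r : ℝ)
      ≤ 1 / (Nat.totient d : ℝ) * ∑ r ∈ SS z X, 1 / (Nat.totient r : ℝ) := by
  rw [Finset.mul_sum]
  have hmap : ∀ r ∈ (SS z X).filter (fun r => d ∣ r), r / d ∈ SS z X := by
    intro r hr
    unfold SS at hr ⊢
    rw [mem_filter, mem_filter, mem_Ico] at hr
    obtain ⟨⟨⟨h1, h2⟩, h3, h4⟩, h5⟩ := hr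
    obtain ⟨s, rfl⟩ := h5
    rw [Nat.mul_div_cancel_left s (by omega)]
    rw [mem_filter, mem_Ico]
    have hs : 1 ≤ s := by
      rcases Nat.eq_zero_or_pos s with h | h
      · rw [h] at h1; simp at h1
      · exact h
    refine ⟨⟨hs, lt_of_le_of_lt (Nat.le_mul_of_pos_left s (by omega)) h2⟩,
      h3.squarefree_of_dvd (Dvd.intro_left d rfl), ?_⟩
    intro p hp hps
    exact h4 p hp (hps.mul_left d)
  have hinj : Set.InjOn (fun r : ℕ => r / d) ((SS z X).filter (fun r => d ∣ r) : Finset ℕ) := by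
    intro r hr s hs hrs
    rw [Finset.mem_coe, mem_filter] at hr hs
    obtain ⟨a, ha⟩ := hr.2
    obtain ⟨b, hb⟩ := hs.2
    simp only at hrs
    rw [ha, hb, Nat.mul_div_cancel_left a (by omega), Nat.mul_div_cancel_left b (by omega)] at hrs
    rw [ha, hb, hrs]
  calc ∑ r ∈ (SS z X).filter (fun r => d ∣ r), 1 / (Nat.totient r : ℝ)
      = ∑ r ∈ (SS z X).filter (fun r => d ∣ r),
          1 / (Nat.totient d : ℝ) * (1 / (Nat.totient (r / d) : ℝ)) := by
        refine Finset.sum_congr rfl fun r hr => ?_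
        unfold SS at hr
        rw [mem_filter, mem_filter, mem_Ico] at hr
        obtain ⟨⟨⟨h1, h2⟩, h3, h4⟩, h5⟩ := hr
        obtain ⟨s, rfl⟩ := h5
        rw [Nat.mul_div_cancel_left s (by omega)]
        have hco : Nat.Coprime d s := (Nat.squarefree_mul_iff.1 h3).1
        rw [Nat.totient_mul hco]
        push_cast
        rw [one_div_mul_one_div]
    _ = ∑ s ∈ ((SS z X).filter (fun r => d ∣ r)).image (fun r => r / d),
          1 / (Nat.totient d : ℝ) * (1 / (Nat.totient s : ℝ)) := by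
        rw [Finset.sum_image hinj]
    _ ≤ ∑ s ∈ SS z X, 1 / (Nat.totient d : ℝ) * (1 / (Nat.totient s : ℝ)) := by
        apply Finset.sum_le_sum_of_subset_of_nonneg
        · intro s hs
          rw [mem_image] at hs
          obtain ⟨r, hr, rfl⟩ := hs
          exact hmap r hr
        · intro s _ _
          positivity

theorem co (h : StmtMA) : StmtCO := by
  obtain ⟨c, C0, hc, hC0, hMA⟩ := h
  intro q hq
  have hq1 : 1 ≤ q := hq.1
  refine ⟨2 * C0 * q + 2, ?_, 32 * q, ?_⟩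
  · have : 0 ≤ 2 * C0 * q := by positivity
    linarith
  intro E hE
  refine ⟨2 * MM E + 2, ?_⟩
  intro z hz d hd
  have hm1 : 1 ≤ m1 q E := by
    unfold m1
    rw [Nat.le_div_iff_mul_le (by omega)]
    rw [Nat.le_div_iff_mul_le (by norm_num)]
    omega
  have hm2 : 1 ≤ m2 q E := by
    unfold m2
    exact Nat.one_le_iff_ne_zero.2 (Nat.mul_ne_zero (by omega) (by omega))
  have hz2 : 2 ≤ z := by omega
  have hV : 1 ≤ VV z (m1 q E) (m2 q E) := hq.2 (m1 q E) z hm1 hz2
  have hd2 := le_two_totient hz hd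
  have hd1 : 1 ≤ d := by
    unfold SS at hd
    rw [mem_filter, mem_Ico] at hd
    exact hd.1.1
  have hphi : (0 : ℝ) < (Nat.totient d : ℝ) := by
    exact_mod_cast Nat.totient_pos.2 (by omega)
  have hdphi : (d : ℝ) * (1 / (Nat.totient d : ℝ)) ≤ 2 := by
    rw [mul_one_div, div_le_iff₀ hphi]
    exact hd2
  have hd0 : (0 : ℝ) ≤ d := Nat.cast_nonneg d
  have hm1r : (1 : ℝ) ≤ (m1 q E : ℝ) := by exact_mod_cast hm1
  constructor
  · have hstep : ∑ r ∈ (LA z (m1 q E) (m2 q E)).filter (fun r => d ∣ r), aa q E z r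
        ≤ ∑ r ∈ (SS z (z ^ m2 q E)).filter (fun r => d ∣ r),
          1 / (m1 q E : ℝ) * (1 / (Nat.totient r : ℝ)) := by
      have hsub : (LA z (m1 q E) (m2 q E)).filter (fun r => d ∣ r)
          ⊆ (SS z (z ^ m2 q E)).filter (fun r => d ∣ r) := by
        apply Finset.filter_subset_filter
        unfold LA
        exact Finset.filter_subset _ _
      refine le_trans ?_ (Finset.sum_le_sum_of_subset_of_nonneg hsub (fun r _ _ => by positivity))
      refine Finset.sum_le_sum fun r hr => ?_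
      rw [mem_filter] at hr
      have hr1 := hr.1
      unfold LA at hr1
      rw [mem_filter] at hr1
      have hrpos : 1 ≤ r := by
        have := hr1.1
        unfold SS at this
        rw [mem_filter, mem_Ico] at this
        exact this.1.1
      have hlog : m1 q E ≤ Nat.log z r := by
        exact (Nat.le_log_iff_pow_le (by omega) (by omega)).2 hr1.2
      have hee : (m1 q E : ℝ) ≤ (ee z r : ℝ) := by
        unfold ee
        exact_mod_cast (by omega : m1 q E ≤ Nat.log z r + 1)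
      have hphir : (0 : ℝ) < (Nat.totient r : ℝ) := by
        exact_mod_cast Nat.totient_pos.2 (by omega)
      unfold aa
      rw [one_div_mul_one_div]
      apply one_div_le_one_div_of_le (by positivity)
      calc (m1 q E : ℝ) * (Nat.totient r : ℝ) ≤ (ee z r : ℝ) * (Nat.totient r : ℝ) :=
            mul_le_mul_of_nonneg_right hee hphir.le
        _ = 1 * ((Nat.totient r : ℝ) * (ee z r : ℝ)) := by ring
        _ ≤ VV z (m1 q E) (m2 q E) * ((Nat.totient r : ℝ) * (ee z r : ℝ)) := by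
            apply mul_le_mul_of_nonneg_right hV
            positivity
        _ = VV z (m1 q E) (m2 q E) * (Nat.totient r : ℝ) * (ee z r : ℝ) := by ring
    have h1 := sum_mult (z := z) (X := z ^ m2 q E) hd1
    have h2 := (hMA z (m2 q E) hz2 hm2).2.1
    have h3 : ∑ r ∈ (SS z (z ^ m2 q E)).filter (fun r => d ∣ r),
          1 / (m1 q E : ℝ) * (1 / (Nat.totient r : ℝ))
        ≤ 1 / (m1 q E : ℝ) * (1 / (Nat.totient d : ℝ) * (C0 * (m2 q E : ℝ))) := by
      rw [← Finset.mul_sum]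
      apply mul_le_mul_of_nonneg_left _ (by positivity)
      refine h1.trans ?_
      apply mul_le_mul_of_nonneg_left h2 (by positivity)
    have h4 : (m2 q E : ℝ) = q * (m1 q E : ℝ) := by
      unfold m2
      push_cast
      ring
    have h5 : 1 / (m1 q E : ℝ) * (1 / (Nat.totient d : ℝ) * (C0 * (m2 q E : ℝ)))
        = 1 / (Nat.totient d : ℝ) * (C0 * q) := by
      rw [h4]
      field_simp
    calc (d : ℝ) * ∑ r ∈ (LA z (m1 q E) (m2 q E)).filter (fun r => d ∣ r), aa q E z r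
        ≤ d * (1 / (Nat.totient d : ℝ) * (C0 * q)) := by
          apply mul_le_mul_of_nonneg_left _ hd0
          rw [← h5]
          exact hstep.trans h3
      _ = (d * (1 / (Nat.totient d : ℝ))) * (C0 * q) := by ring
      _ ≤ 2 * (C0 * q) := mul_le_mul_of_nonneg_right hdphi (by positivity)
      _ ≤ 2 * C0 * q + 2 := by linarith
  · have h1 := sum_mult (z := z) (X := z ^ MM E) hd1
    have hnn : 0 ≤ ∑ r ∈ SS z (z ^ MM E), 1 / (Nat.totient r : ℝ) :=
      Finset.sum_nonneg fun r _ => by positivity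
    calc (d : ℝ) * ∑ r ∈ (SS z (z ^ MM E)).filter (fun r => d ∣ r), 1 / (Nat.totient r : ℝ)
        ≤ d * (1 / (Nat.totient d : ℝ) * ∑ r ∈ SS z (z ^ MM E), 1 / (Nat.totient r : ℝ)) :=
          mul_le_mul_of_nonneg_left h1 hd0
      _ = (d * (1 / (Nat.totient d : ℝ))) * ∑ r ∈ SS z (z ^ MM E), 1 / (Nat.totient r : ℝ) := by
          ring
      _ ≤ 2 * ∑ r ∈ SS z (z ^ MM E), 1 / (Nat.totient r : ℝ) :=
          mul_le_mul_of_nonneg_right hdphi hnn
      _ ≤ (2 * C0 * q + 2) * ∑ r ∈ SS z (z ^ MM E), 1 / (Nat.totient r : ℝ) := by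
          apply mul_le_mul_of_nonneg_right _ hnn
          have : 0 ≤ 2 * C0 * q := by positivity
          linarith

end Pool.Agent.Helper69.PP
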